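import Pool.Agent.H18.SAP.Stmts

set_option autoImplicit false

namespace SAP
open Finset

/-- module BAD: few `t` are bad -/
theorem bad : S_BAD := by
  classical
  intro K c S hK hc
  refine ⟨8 * ((S : ℝ) + 1), by positivity, ?_⟩
  intro x hx
  have hx0 : (0 : ℝ) < x := by linarith
  set f : ℕ × ℕ → ℕ := fun a =>
    a.1 * ((sInf {P : ℕ | P.Prime ∧ c * a.1 ∣ P - 1} - 1) / (c * a.1) + a.2) with hf
  set M : ℕ := ⌊8 * x ^ (1 - 1 / (K : ℝ))⌋₊ with hM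
  have hsub : ((Icc 1 ⌊8 * x⌋₊).filter (fun t : ℕ =>
      (∀ p ∈ t.primeFactors, x ^ (1 / (K : ℝ)) ≤ (p : ℝ)) ∧
      (c * t + 1).Prime ∧ ∃ ρ : ℕ, ρ.Prime ∧ ρ ∣ t ∧ ¬ ∃ P : ℕ, Lst c t ρ S P)) ⊆
      ((Icc 1 M) ×ˢ (range (S + 1))).image f := by
    intro t ht
    rw [mem_filter, mem_Icc] at ht
    obtain ⟨⟨ht1, ht2⟩, htp, hq, ρ, hρ, hρt, hno⟩ := ht
    obtain ⟨m, rfl⟩ := hρt
    have hρ0 : 0 < ρ := hρ.pos
    have hm0 : 0 < m := by
      rcases Nat.eq_zero_or_pos m with h | h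
      · subst h; simp at ht1
      · exact h
    have hcm : 0 < c * m := Nat.mul_pos hc hm0
    have hset : (c * (ρ * m) + 1) ∈ {P : ℕ | P.Prime ∧ c * m ∣ P - 1} := by
      refine ⟨hq, ⟨ρ, ?_⟩⟩
      rw [Nat.add_sub_cancel]; ring
    set P : ℕ := sInf {P : ℕ | P.Prime ∧ c * m ∣ P - 1} with hP
    have hPm : P ∈ {P : ℕ | P.Prime ∧ c * m ∣ P - 1} := Nat.sInf_mem ⟨_, hset⟩
    obtain ⟨hPp, hPd⟩ := hPm
    have hPle : P ≤ c * (ρ * m) + 1 := Nat.sInf_le hset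
    have hmin : ∀ P' : ℕ, P'.Prime → c * (ρ * m) ∣ ρ * (P' - 1) → P ≤ P' := by
      intro P' hP' hd
      apply Nat.sInf_le
      refine ⟨hP', ?_⟩
      have : ρ * (c * m) ∣ ρ * (P' - 1) := by
        rw [show ρ * (c * m) = c * (ρ * m) by ring]; exact hd
      exact (Nat.mul_dvd_mul_iff_left hρ0).1 this
    have hlt : c * (ρ * m) < P + S := by
      by_contra hcon
      push Not at hcon
      apply hno
      refine ⟨P, hPp, ?_, hcon, hmin⟩
      have : ρ * (c * m) ∣ ρ * (P - 1) := Nat.mul_dvd_mul_left _ hPd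
      rw [show c * (ρ * m) = ρ * (c * m) by ring]; exact this
    obtain ⟨u, hu⟩ := hPd
    have hP2 : 2 ≤ P := hPp.two_le
    have hudiv : (P - 1) / (c * m) = u := by
      rw [hu]; exact Nat.mul_div_cancel_left u hcm
    have huρ : u ≤ ρ := by
      have h1 : (c * m) * u ≤ (c * m) * ρ := by
        rw [← hu]
        have : c * (ρ * m) = c * m * ρ := by ring
        omega
      exact Nat.le_of_mul_le_mul_left h1 hcm
    obtain ⟨v, rfl⟩ := Nat.exists_eq_add_of_le huρ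
    have hv : v < S + 1 := by
      have e1 : c * ((u + v) * m) = c * m * u + c * m * v := by ring
      have e2 : v ≤ c * m * v := Nat.le_mul_of_pos_left v hcm
      omega
    rw [mem_image]
    refine ⟨(m, v), ?_, ?_⟩
    · rw [mem_product, mem_Icc, mem_range]
      refine ⟨⟨hm0, ?_⟩, hv⟩
      apply Nat.le_floor
      have hρx : x ^ (1 / (K : ℝ)) ≤ ((u + v : ℕ) : ℝ) :=
        htp _ (Nat.mem_primeFactors.2 ⟨hρ, Dvd.intro m rfl, by positivity⟩)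
      have ht8 : (((u + v) * m : ℕ) : ℝ) ≤ 8 * x := by
        have h8 : (0 : ℝ) ≤ 8 * x := by positivity
        exact (Nat.cast_le.2 ht2).trans (Nat.floor_le h8)
      have hpos : (0 : ℝ) < x ^ (1 / (K : ℝ)) := Real.rpow_pos_of_pos hx0 _
      rw [Real.rpow_sub hx0, Real.rpow_one]
      rw [mul_div_assoc', le_div_iff₀ hpos]
      push_cast at ht8 hρx ⊢
      have hm' : (0 : ℝ) ≤ (m : ℝ) := Nat.cast_nonneg m
      calc (m : ℝ) * x ^ (1 / (K : ℝ)) ≤ (m : ℝ) * ((u : ℝ) + v) :=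
            mul_le_mul_of_nonneg_left hρx hm'
        _ = ((u : ℝ) + v) * m := by ring
        _ ≤ 8 * x := ht8
    · show m * ((sInf {P : ℕ | P.Prime ∧ c * m ∣ P - 1} - 1) / (c * m) + v) = (u + v) * m
      rw [← hP, hudiv]; ring
  have hcard := (card_le_card hsub).trans card_image_le
  rw [card_product, card_range, Nat.card_Icc, Nat.add_sub_cancel] at hcard
  have hMx : (M : ℝ) ≤ 8 * x ^ (1 - 1 / (K : ℝ)) := Nat.floor_le (by positivity)
  calc (((Icc 1 ⌊8 * x⌋₊).filter (fun t : ℕ =>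
      (∀ p ∈ t.primeFactors, x ^ (1 / (K : ℝ)) ≤ (p : ℝ)) ∧
      (c * t + 1).Prime ∧ ∃ ρ : ℕ, ρ.Prime ∧ ρ ∣ t ∧ ¬ ∃ P : ℕ, Lst c t ρ S P)).card : ℝ)
      ≤ ((M * (S + 1) : ℕ) : ℝ) := by exact_mod_cast hcard
    _ = (M : ℝ) * ((S : ℝ) + 1) := by push_cast; ring
    _ ≤ 8 * x ^ (1 - 1 / (K : ℝ)) * ((S : ℝ) + 1) := by
        apply mul_le_mul_of_nonneg_right hMx (by positivity)
    _ = 8 * ((S : ℝ) + 1) * x ^ (1 - 1 / (K : ℝ)) := by ring

end SAP
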