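import Pool.Agent.H18.SAP.Stmts

set_option autoImplicit false

namespace SAP
open Finset

/-- module CHN: products of stages form a chain -/
theorem chn : S_CHN := by
  classical
  intro L h Q hQ hcop hpr hk
  have hpos : ∀ l, 0 < h l := fun l => lt_of_lt_of_le (by norm_num) (hQ l).2.2
  have hle : ∀ l, h l ≤ Q l := fun l => by
    rw [← (hQ l).2.1]; exact Nat.totient_le _
  refine ⟨?_, ?_⟩
  · intro i j hij
    show ∏ l ∈ Iic i, h l < ∏ l ∈ Iic j, h l
    have hsub : insert j (Iic i) ⊆ Iic j := by
      intro l hl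
      rw [mem_insert, mem_Iic] at hl
      rw [mem_Iic]
      rcases hl with rfl | hl
      · exact le_rfl
      · exact hl.trans hij.le
    have hnot : j ∉ Iic i := by
      rw [mem_Iic]; exact not_le.2 hij
    have h1 : ∏ l ∈ insert j (Iic i), h l ≤ ∏ l ∈ Iic j, h l :=
      Finset.prod_le_prod_of_subset_of_one_le' hsub (fun l _ _ => hpos l)
    rw [prod_insert hnot] at h1
    have h2 : 0 < ∏ l ∈ Iic i, h l := prod_pos (fun l _ => hpos l)
    have h3 := (hQ j).2.2
    nlinarith
  · intro i j hji
    refine ⟨∏ l ∈ Ioc j i, h l, ?_, ?_⟩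
    · show ∏ l ∈ Iic i, h l = (∏ l ∈ Iic j, h l) * ∏ l ∈ Ioc j i, h l
      rw [← prod_union]
      · congr 1
        ext l
        simp only [mem_union, mem_Iic, mem_Ioc]
        constructor
        · intro hl
          rcases le_or_gt l j with h | h
          · exact Or.inl h
          · exact Or.inr ⟨h, hl⟩
        · rintro (h | h)
          · exact h.trans hji.le
          · exact h.2
      · rw [Finset.disjoint_left]
        intro l hl hl'
        rw [mem_Iic] at hl
        rw [mem_Ioc] at hl'
        exact absurd hl'.1 (not_lt.2 hl)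
    · intro ℓ hℓ hdiv
      have hdi : ℓ ∣ h i := by
        obtain ⟨l, -, hl⟩ := (Prime.dvd_finsetProd_iff hℓ.prime _).1 hdiv
        exact hpr l i ℓ hℓ hl
      obtain ⟨k, hk0, hkc, hkd, hkl⟩ := hk i ℓ hℓ hdi
      have hIoc : Ioc j i = insert i (Ioo j i) := (Finset.Ioo_insert_right hji).symm
      have hnoti : i ∉ Ioo j i := by simp
      have hg : ∏ l ∈ Ioc j i, h l = h i * ∏ l ∈ Ioo j i, h l := by
        rw [hIoc, prod_insert hnoti]
      have htot : ∀ s : Finset (Fin L), (∏ l ∈ s, Q l).totient = ∏ l ∈ s, h l := by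
        intro s
        induction s using Finset.induction_on with
        | empty => simp
        | insert a s ha ih =>
          rw [prod_insert ha, prod_insert ha, Nat.totient_mul, ih, (hQ a).2.1]
          apply Nat.Coprime.prod_right
          intro b hb
          apply hcop
          rintro rfl
          exact ha hb
      have hkcop : k.Coprime (∏ l ∈ Ioo j i, Q l) := by
        apply Nat.Coprime.prod_right
        intro b hb
        apply hkc
        rintro rfl
        simp at hb
      refine ⟨k * ∏ l ∈ Ioo j i, Q l, ?_, ?_, ?_⟩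
      · exact Nat.mul_pos hk0 (prod_pos (fun l _ => (hQ l).1))
      · rw [hg]
        have hsub : Ioo j i ⊆ univ.erase i := by
          intro l hl
          rw [mem_erase]
          refine ⟨?_, mem_univ _⟩
          rintro rfl
          simp at hl
        rw [← prod_sdiff hsub, ← prod_sdiff hsub] at hkl
        set R := (univ.erase i) \ Ioo j i with hR
        have hR1 : ∏ l ∈ R, h l ≤ ∏ l ∈ R, Q l := prod_le_prod' (fun l _ => hle l)
        have hR2 : 0 < ∏ l ∈ R, h l := prod_pos (fun l _ => hpos l)
        have h5 : (∏ l ∈ R, h l) * (k * ∏ l ∈ Ioo j i, Q l) <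
            (∏ l ∈ R, h l) * (h i * ∏ l ∈ Ioo j i, h l) := by
          calc (∏ l ∈ R, h l) * (k * ∏ l ∈ Ioo j i, Q l)
              ≤ (∏ l ∈ R, Q l) * (k * ∏ l ∈ Ioo j i, Q l) := Nat.mul_le_mul_right _ hR1
            _ = k * ((∏ l ∈ R, Q l) * ∏ l ∈ Ioo j i, Q l) := by ring
            _ < h i * ((∏ l ∈ R, h l) * ∏ l ∈ Ioo j i, h l) := hkl
            _ = (∏ l ∈ R, h l) * (h i * ∏ l ∈ Ioo j i, h l) := by ring
        exact Nat.lt_of_mul_lt_mul_left h5
      · rw [hg, Nat.totient_mul hkcop, htot, ← mul_assoc]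
        exact Nat.mul_dvd_mul_right hkd _

end SAP
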