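import Pool.Agent.H18.SAP.Stmts

set_option autoImplicit false

namespace SAP
open Finset

namespace SYR

/-- the totient of a product of distinct primes -/
theorem totient_prod {ι : Type} [DecidableEq ι] (q : ι → ℕ) (hq : ∀ i, (q i).Prime)
    (hne : ∀ i j, i ≠ j → q i ≠ q j) (s : Finset ι) :
    (∏ i ∈ s, q i).totient = ∏ i ∈ s, (q i - 1) := by
  induction s using Finset.induction_on with
  | empty => simp
  | insert a s ha ih =>
    rw [prod_insert ha, prod_insert ha, Nat.totient_mul, ih, Nat.totient_prime (hq a)]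
    apply Nat.Coprime.prod_right
    intro b hb
    apply (Nat.coprime_primes (hq a) (hq b)).2
    apply hne
    rintro rfl
    exact ha hb

end SYR

/-- module SYR: target prime `ρ > Y` -/
theorem syr (h1 : S_SY0) (h2 : S_CIN) : S_SYR := by
  classical
  intro L Y S X X0 Cm G Pos _ _ t A B k0 hY hS l ρ hρ hYρ hd
  obtain ⟨hdist, hQ, hcop, -, -⟩ := h1 L Y S X X0 Cm G Pos t A B k0 hY hS
  have hX2 : 2 ≤ X := (hQ l).1
  have hXpos : 0 < X := by omega
  obtain ⟨π, hπ⟩ : ∃ π, ρ ∣ t π := by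
    unfold hs at hd
    obtain ⟨π, -, hπ⟩ := (Prime.dvd_finsetProd_iff hρ.prime _).1 hd
    refine ⟨π, ?_⟩
    rcases (Nat.Prime.dvd_mul hρ).1 hπ with h | h
    · exact absurd (hS.Asm l π ρ hρ h) (not_le.2 hYρ)
    · exact h
  obtain ⟨P, hP, hPd, hPS, hPne⟩ := hS.rho l π ρ hρ hπ
  set F : Fin L × Pos → ℕ := fun a => A a.1 a.2 * t a.2 with hF
  have hFX : ∀ a, X ≤ F a := fun a =>
    (hS.tX a.2).1.trans (Nat.le_mul_of_pos_left _ (hS.Apos a.1 a.2).1)
  have hFpos : ∀ a, 0 < F a := fun a => lt_of_lt_of_le hXpos (hFX a)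
  set s : Finset (Fin L × Pos) := univ.erase (l, π) with hs'
  have hscard : s.card ≤ L * Fintype.card Pos := by
    have : s.card ≤ (univ : Finset (Fin L × Pos)).card := card_le_card (erase_subset _ _)
    simpa [Fintype.card_prod] using this
  have hG : 1 ≤ G := by
    obtain ⟨g1, g2, g3⟩ := hS.kpos l 2 Nat.prime_two hY
    have : 0 < (k0 l 2).totient := Nat.totient_pos.2 g1
    omega
  have hXG := hS.XG
  have hcardX : s.card ≤ X := by
    have : L * Fintype.card Pos ≤ 2 * (L * Fintype.card Pos) * G := by nlinarith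
    omega
  -- the product over all pairs
  have hsplit : ∀ H : Fin L × Pos → ℕ, H (l, π) * ∏ a ∈ s, H a =
      H (l, π) * ((∏ π' ∈ univ.erase π, H (l, π')) *
        ∏ l' ∈ univ.erase l, ∏ π', H (l', π')) := by
    intro H
    rw [hs', Finset.mul_prod_erase univ H (mem_univ _), ← mul_assoc,
      Finset.mul_prod_erase univ (fun π' => H (l, π')) (mem_univ _),
      Finset.mul_prod_erase univ (fun l' => ∏ π', H (l', π')) (mem_univ _)]
    rw [Fintype.prod_prod_type]
  have hcin := h2 (Fin L × Pos) s F X (fun a _ => hFX a) hcardX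
  have hprime : ∀ π' : Pos, (A l π' * t π' + 1).Prime := fun π' => hS.Apr l π'
  have hne' : ∀ i j : Pos, i ≠ j → A l i * t i + 1 ≠ A l j * t j + 1 := by
    intro i j hij
    exact hdist i j hij _ _ (hS.Apos l i).1 (hS.Apos l i).2 (hS.Apos l j).1 (hS.Apos l j).2 hX2
  have htot := SYR.totient_prod (fun π' : Pos => A l π' * t π' + 1) hprime hne' (univ.erase π)
  have hPcop : ∀ l' : Fin L, ∀ u : Finset Pos, P.Coprime (∏ π' ∈ u, (A l' π' * t π' + 1)) := by
    intro l' u
    apply Nat.Coprime.prod_right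
    intro b _
    exact (Nat.coprime_primes hP (hS.Apr l' b)).2 (hPne l' b)
  refine ⟨P * ∏ π' ∈ univ.erase π, (A l π' * t π' + 1), ?_, ?_, ?_, ?_⟩
  · exact Nat.mul_pos hP.pos (prod_pos (fun _ _ => Nat.succ_pos _))
  · intro l' hl'
    apply Nat.Coprime.mul_left
    · exact hPcop l' univ
    · have hc := hcop l l' (Ne.symm hl')
      apply Nat.Coprime.coprime_dvd_left _ hc
      unfold Qs
      exact prod_dvd_prod_of_subset _ _ _ (erase_subset _ _)
  · rw [Nat.totient_mul (hPcop l (univ.erase π)), htot, Nat.totient_prime hP]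
    have e1 : hs t A l = A l π * t π * ∏ π' ∈ univ.erase π, (A l π' * t π') := by
      unfold hs
      rw [Finset.mul_prod_erase univ (fun π' => A l π' * t π') (mem_univ _)]
    rw [e1, ← mul_assoc]
    simp only [Nat.add_sub_cancel]
    exact Nat.mul_dvd_mul_right hPd _
  · have e1 := hsplit F
    have e2 := hsplit (fun a => F a + 1)
    have e1' : ∏ a ∈ s, F a = (∏ π' ∈ univ.erase π, F (l, π')) *
        ∏ l' ∈ univ.erase l, ∏ π', F (l', π') :=
      Nat.eq_of_mul_eq_mul_left (hFpos (l, π)) e1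
    have e2' : ∏ a ∈ s, (F a + 1) = (∏ π' ∈ univ.erase π, (F (l, π') + 1)) *
        ∏ l' ∈ univ.erase l, ∏ π', (F (l', π') + 1) :=
      Nat.eq_of_mul_eq_mul_left (Nat.succ_pos (F (l, π))) e2
    have e3 : P * (∏ π' ∈ univ.erase π, (A l π' * t π' + 1)) *
        ∏ l' ∈ univ.erase l, Qs t A l' = P * ∏ a ∈ s, (F a + 1) := by
      rw [e2', mul_assoc]
      rfl
    have e4 : hs t A l * ∏ l' ∈ univ.erase l, hs t A l' = F (l, π) * ∏ a ∈ s, F a := by
      rw [e1', ← mul_assoc]
      congr 1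
      unfold hs
      rw [Finset.mul_prod_erase univ (fun π' => F (l, π')) (mem_univ _)]
    rw [e3, e4]
    have hprodpos : 0 < ∏ a ∈ s, F a := prod_pos (fun a _ => hFpos a)
    have hkey : P * (X + 2 * s.card) < X * F (l, π) := by
      have hFle : F (l, π) ≤ Cm * (100 * X) := Nat.mul_le_mul (hS.Apos l π).2 (hS.tX π).2
      have hSC := hS.SC
      have hPS' : P + S ≤ F (l, π) := hPS
      have g1 : 2 * s.card * F (l, π) ≤ (200 * (L * Fintype.card Pos) * Cm) * X := by
        calc 2 * s.card * F (l, π) ≤ 2 * (L * Fintype.card Pos) * (Cm * (100 * X)) :=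
              Nat.mul_le_mul (Nat.mul_le_mul_left _ hscard) hFle
          _ = (200 * (L * Fintype.card Pos) * Cm) * X := by ring
      have g2 : (200 * (L * Fintype.card Pos) * Cm) * X < S * X := Nat.mul_lt_mul_of_pos_right hSC hXpos
      have g3 : (P + S) * (X + 2 * s.card) ≤ F (l, π) * (X + 2 * s.card) :=
        Nat.mul_le_mul_right _ hPS'
      nlinarith [Nat.zero_le (S * (2 * s.card))]
    have h7 : X * (P * ∏ a ∈ s, (F a + 1)) < X * (F (l, π) * ∏ a ∈ s, F a) := by
      calc X * (P * ∏ a ∈ s, (F a + 1)) = P * (X * ∏ a ∈ s, (F a + 1)) := by ring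
        _ ≤ P * ((X + 2 * s.card) * ∏ a ∈ s, F a) := Nat.mul_le_mul_left _ hcin
        _ = (P * (X + 2 * s.card)) * ∏ a ∈ s, F a := by ring
        _ < (X * F (l, π)) * ∏ a ∈ s, F a := Nat.mul_lt_mul_of_pos_right hkey hprodpos
        _ = X * (F (l, π) * ∏ a ∈ s, F a) := by ring
    exact Nat.lt_of_mul_lt_mul_left h7

end SAP
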